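import Pool.Agent.Run7.h932.RG.Stm

set_option autoImplicit false
set_option maxHeartbeats 1000000

/-!
# Pieces SAMP and COV of project RG (MP_ef9bc2_co)
-/

namespace Run7.h722.RG

open Finset Classical Run7.h932.RG

section pi

variable {V : Type} [Fintype V] {M : ℕ}

lemma sum_pi (f : V → Fin (M + 1) → ℝ) :
    ∑ c : V → Fin (M + 1), ∏ x, f x (c x) = ∏ x, ∑ v, f x v := by
  rw [Finset.prod_univ_sum, Fintype.piFinset_univ]

lemma prod_one_coord (y : V) (a b : ℝ) :
    ∏ x : V, (if x = y then a else b) = a * b ^ (Fintype.card V - 1) := by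
  rw [Fintype.prod_eq_mul_prod_compl y, if_pos rfl]
  congr 1
  rw [Finset.prod_congr rfl (g := fun _ => b), Finset.prod_const, Finset.card_compl,
    Finset.card_singleton]
  intro x hx
  rw [if_neg]
  simpa using hx

lemma sum_one (y : V) (g : Fin (M + 1) → ℝ) :
    ∑ c : V → Fin (M + 1), g (c y) = (∑ v, g v) * ((M : ℝ) + 1) ^ (Fintype.card V - 1) := by
  have h1 : ∀ c : V → Fin (M + 1), g (c y) = ∏ x, (if x = y then g (c x) else 1) := by
    intro c
    rw [Finset.prod_ite_eq' Finset.univ y (fun x => g (c x))]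
    simp
  rw [Finset.sum_congr rfl fun c _ => h1 c, sum_pi (fun x v => if x = y then g v else 1)]
  rw [← prod_one_coord y]
  apply Finset.prod_congr rfl
  intro x _
  split_ifs
  · rfl
  · simp

lemma sum_two {y z : V} (hyz : y ≠ z) (g h : Fin (M + 1) → ℝ) (hg : ∑ v, g v = 0) :
    ∑ c : V → Fin (M + 1), g (c y) * h (c z) = 0 := by
  have h1 : ∀ c : V → Fin (M + 1), g (c y) * h (c z) =
      ∏ x, ((if x = y then g (c x) else 1) * (if x = z then h (c x) else 1)) := by
    intro c
    rw [Finset.prod_mul_distrib, Finset.prod_ite_eq' Finset.univ y (fun x => g (c x)),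
      Finset.prod_ite_eq' Finset.univ z (fun x => h (c x))]
    simp
  rw [Finset.sum_congr rfl fun c _ => h1 c,
    sum_pi (fun x v => (if x = y then g v else 1) * (if x = z then h v else 1))]
  apply Finset.prod_eq_zero (Finset.mem_univ y)
  simp [hyz, hg]

end pi

theorem t_SAMP : S_SAMP := by
  intro V I _ _ N a E hN hE hs
  rcases isEmpty_or_nonempty V with hV | hV
  · refine ⟨∅, by simp, ?_⟩
    simp
    exact hE.le
  obtain ⟨M, rfl⟩ : ∃ M, N = M + 1 := ⟨N - 1, by omega⟩
  have hn : 1 ≤ Fintype.card V := Fintype.card_pos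
  set n := Fintype.card V with hnd
  have hn0 : (0:ℝ) < n := by exact_mod_cast hn
  set T : ℝ := ((M : ℝ) + 1) ^ n with hT
  have hM0 : (0:ℝ) < (M:ℝ) + 1 := by positivity
  have hT0 : 0 < T := by positivity
  have hTs : ((M : ℝ) + 1) * ((M : ℝ) + 1) ^ (n - 1) = T := by
    rw [← pow_succ', hT]; congr 1; omega
  let Z : Fin (M + 1) → ℝ := fun v => 1 - ((M:ℝ) + 1) * (if v = 0 then 1 else 0)
  have hZ0 : ∑ v, Z v = 0 := by
    simp only [Z]
    rw [Finset.sum_sub_distrib, ← Finset.mul_sum]
    simp
  have hZ2 : ∑ v, Z v * Z v = M * ((M:ℝ) + 1) := by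
    have h1 : ∀ v, Z v * Z v = 1 + (((M:ℝ) + 1) ^ 2 - 2 * ((M:ℝ) + 1)) * (if v = 0 then 1 else 0) := by
      intro v
      simp only [Z]
      split_ifs <;> ring
    rw [Finset.sum_congr rfl fun v _ => h1 v, Finset.sum_add_distrib, ← Finset.mul_sum]
    simp
    ring
  have hpair : ∀ y z : V, ∑ c : V → Fin (M + 1), Z (c y) * Z (c z) = if y = z then M * T else 0 := by
    intro y z
    split_ifs with h
    · subst h
      rw [sum_one y (fun v => Z v * Z v), hZ2, ← hTs]
      ring
    · exact sum_two h Z Z hZ0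
  set s : I → ℝ := fun i => √(((M + 1 : ℕ) : ℝ) * ∑ y, a i y ^ 2) with hsd
  have hs0 : ∀ i, 0 ≤ s i := fun i => Real.sqrt_nonneg _
  have hs2 : ∀ i, s i ^ 2 = ((M:ℝ) + 1) * ∑ y, a i y ^ 2 := by
    intro i
    simp only [hsd]
    rw [Real.sq_sqrt (by positivity)]
    push_cast
    ring
  let er : I → (V → Fin (M + 1)) → ℝ := fun i c => ∑ y, a i y * Z (c y)
  have her : ∀ i, ∑ c, er i c ^ 2 = M * T * ∑ y, a i y ^ 2 := by
    intro i
    have h1 : ∀ c, er i c ^ 2 = ∑ y, ∑ z, (a i y * a i z) * (Z (c y) * Z (c z)) := by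
      intro c
      simp only [er]
      rw [sq, Finset.sum_mul_sum]
      apply Finset.sum_congr rfl
      intro y _
      apply Finset.sum_congr rfl
      intro z _
      ring
    rw [Finset.sum_congr rfl fun c _ => h1 c, Finset.sum_comm]
    have h2 : ∀ y, ∑ c : V → Fin (M + 1), ∑ z, (a i y * a i z) * (Z (c y) * Z (c z)) =
        M * T * a i y ^ 2 := by
      intro y
      rw [Finset.sum_comm]
      have h3 : ∀ z, ∑ c : V → Fin (M + 1), (a i y * a i z) * (Z (c y) * Z (c z)) =
          if y = z then (a i y * a i z) * (M * T) else 0 := by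
        intro z
        rw [← Finset.mul_sum, hpair]
        split_ifs <;> simp
      rw [Finset.sum_congr rfl fun z _ => h3 z, Finset.sum_ite_eq]
      simp
      ring
    rw [Finset.sum_congr rfl fun y _ => h2 y, ← Finset.mul_sum]
  have hab : ∀ i c, |er i c| ≤ er i c ^ 2 / (2 * s i) + s i / 2 := by
    intro i c
    rcases (hs0 i).eq_or_lt with h | h
    · have h1 : ∑ y, a i y ^ 2 = 0 := by
        have := hs2 i
        rw [← h] at this
        have h3 : ((M:ℝ) + 1) * ∑ y, a i y ^ 2 = 0 := by rw [← this]; ring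
        rcases mul_eq_zero.1 h3 with h4 | h4
        · linarith
        · exact h4
      have h2 : ∀ y, a i y = 0 := by
        intro y
        rw [Finset.sum_eq_zero_iff_of_nonneg (fun _ _ => sq_nonneg _)] at h1
        have := h1 y (Finset.mem_univ y)
        exact pow_eq_zero_iff (two_ne_zero) |>.1 this
      have h3 : er i c = 0 := by
        simp only [er]
        exact Finset.sum_eq_zero fun y _ => by rw [h2 y, zero_mul]
      rw [h3, ← h]; simp
    · have h1 : er i c ^ 2 / (2 * s i) + s i / 2 - |er i c| = (|er i c| - s i) ^ 2 / (2 * s i) := by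
        field_simp
        rw [← sq_abs (er i c)]
        ring
      have h2 : 0 ≤ (|er i c| - s i) ^ 2 / (2 * s i) := by positivity
      linarith
  let f : (V → Fin (M + 1)) → ℝ := fun c =>
    (∑ y, if c y = 0 then (1:ℝ) else 0) * (M + 1) / (2 * n) +
      (∑ i, (er i c ^ 2 / (2 * s i) + s i / 2)) / (2 * E)
  have hsum : ∑ c, f c ≤ ∑ c : V → Fin (M + 1), (1:ℝ) := by
    have e0 : ∑ c : V → Fin (M + 1), (1:ℝ) = T := by
      rw [Finset.sum_const, Finset.card_univ, Fintype.card_fun, Fintype.card_fin, nsmul_eq_mul,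
        mul_one, hT]
      push_cast
      rfl
    rw [e0]
    simp only [f]
    rw [Finset.sum_add_distrib]
    have e1 : ∑ c : V → Fin (M + 1), (∑ y, if c y = 0 then (1:ℝ) else 0) * (M + 1) / (2 * n) = T / 2 := by
      rw [← Finset.sum_div, ← Finset.sum_mul, Finset.sum_comm]
      have h1 : ∀ y : V, ∑ c : V → Fin (M + 1), (if c y = 0 then (1:ℝ) else 0) =
          ((M : ℝ) + 1) ^ (n - 1) := by
        intro y
        rw [sum_one y (fun v => if v = 0 then (1:ℝ) else 0)]
        simp [hnd]
      rw [Finset.sum_congr rfl fun y _ => h1 y, Finset.sum_const, Finset.card_univ, nsmul_eq_mul,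
        ← hTs]
      field_simp
      rw [← hnd]
    have e2 : ∑ c : V → Fin (M + 1), (∑ i, (er i c ^ 2 / (2 * s i) + s i / 2)) / (2 * E) ≤ T / 2 := by
      rw [← Finset.sum_div, Finset.sum_comm]
      have h1 : ∀ i, ∑ c : V → Fin (M + 1), (er i c ^ 2 / (2 * s i) + s i / 2) ≤ T * s i := by
        intro i
        rw [Finset.sum_add_distrib, ← Finset.sum_div, her i, Finset.sum_const, Finset.card_univ,
          Fintype.card_fun, Fintype.card_fin, nsmul_eq_mul]
        have h2 : (((M + 1) ^ Fintype.card V : ℕ) : ℝ) = T := by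
          rw [hT]; push_cast; rfl
        rw [h2]
        have h3 : M * T * ∑ y, a i y ^ 2 / (2 * s i) ≤ T * (s i / 2) := by
          rw [← Finset.sum_div]
          rcases (hs0 i).eq_or_lt with h | h
          · rw [← h]; simp
          · rw [mul_div_assoc', div_le_iff₀ (by positivity)]
            have h4 := hs2 i
            have h5 : 0 ≤ ∑ y, a i y ^ 2 := Finset.sum_nonneg fun _ _ => sq_nonneg _
            have h6 : (M:ℝ) * ∑ y, a i y ^ 2 ≤ s i ^ 2 := by rw [h4]; nlinarith
            calc M * T * ∑ y, a i y ^ 2 = T * (M * ∑ y, a i y ^ 2) := by ring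
              _ ≤ T * s i ^ 2 := mul_le_mul_of_nonneg_left h6 hT0.le
              _ = T * (s i / 2) * (2 * s i) := by ring
        have h7 : (M * T * ∑ y, a i y ^ 2) / (2 * s i) = M * T * ∑ y, a i y ^ 2 / (2 * s i) := by
          rw [← Finset.sum_div]; ring
        rw [h7]
        linarith
      rw [div_le_iff₀ (by positivity)]
      calc ∑ i, ∑ c : V → Fin (M + 1), (er i c ^ 2 / (2 * s i) + s i / 2) ≤ ∑ i, T * s i :=
            Finset.sum_le_sum fun i _ => h1 i
        _ = T * ∑ i, s i := by rw [Finset.mul_sum]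
        _ ≤ T * E := mul_le_mul_of_nonneg_left hs hT0.le
        _ = T / 2 * (2 * E) := by ring
    linarith
  obtain ⟨c, -, hc⟩ := Finset.exists_le_of_sum_le (Finset.univ_nonempty) hsum
  simp only [f] at hc
  have hY : (∑ y, if c y = 0 then (1:ℝ) else 0) =
      ((Finset.univ.filter fun y => c y = 0).card : ℝ) := by
    rw [Finset.card_filter]; push_cast; rfl
  have hsums : ∑ i, |er i c| ≤ ∑ i, (er i c ^ 2 / (2 * s i) + s i / 2) :=
    Finset.sum_le_sum fun i _ => hab i c
  have hA : 0 ≤ (∑ y, if c y = 0 then (1:ℝ) else 0) * (M + 1) / (2 * n) := by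
    rw [hY]; positivity
  have hB : 0 ≤ (∑ i, (er i c ^ 2 / (2 * s i) + s i / 2)) / (2 * E) :=
    div_nonneg ((Finset.sum_nonneg fun i _ => abs_nonneg _).trans hsums) (by positivity)
  refine ⟨Finset.univ.filter fun y => c y = 0, ?_, ?_⟩
  · have h1 : (∑ y, if c y = 0 then (1:ℝ) else 0) * (M + 1) / (2 * n) ≤ 1 := by linarith
    rw [div_le_one (by positivity), hY] at h1
    have h2 : (((Finset.univ.filter fun y => c y = 0).card * (M + 1) : ℕ) : ℝ) ≤ ((2 * n : ℕ) : ℝ) := by
      push_cast; exact h1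
    exact_mod_cast h2
  · have h1 : (∑ i, (er i c ^ 2 / (2 * s i) + s i / 2)) / (2 * E) ≤ 1 := by linarith
    rw [div_le_one (by positivity)] at h1
    refine le_trans (le_of_eq ?_) (hsums.trans h1)
    apply Finset.sum_congr rfl
    intro i _
    congr 1
    simp only [er, Z]
    rw [Finset.sum_filter, Finset.mul_sum, ← Finset.sum_sub_distrib]
    apply Finset.sum_congr rfl
    intro y _
    push_cast
    split_ifs <;> ring

/-- a finite set with at most `m` elements is the set of the values of a function on `Fin m` -/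
lemma exists_code {α : Type} (s : Finset α) (m : ℕ) (h : s.card ≤ m) :
    ∃ f : Fin m → Option α, ∀ a, a ∈ s ↔ ∃ i, f i = some a := by
  let e := s.equivFin
  refine ⟨fun i => if hi : (i:ℕ) < s.card then some (e.symm ⟨i, hi⟩ : α) else none, fun a => ?_⟩
  constructor
  · intro ha
    refine ⟨⟨e ⟨a, ha⟩, (e ⟨a, ha⟩).2.trans_le h⟩, ?_⟩
    have : ((e ⟨a, ha⟩ : Fin s.card) : ℕ) < s.card := (e ⟨a, ha⟩).2
    simp [this]
  · rintro ⟨i, hi⟩
    beta_reduce at hi
    by_cases h1 : (i:ℕ) < s.card
    · rw [dif_pos h1] at hi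
      have h2 := Option.some.inj hi
      rw [← h2]
      exact (e.symm ⟨i, h1⟩).2
    · rw [dif_neg h1] at hi
      exact absurd hi (by simp)

theorem t_COV : S_SAMP → S_COV := by
  intro hS n k N w P B hn hk hN hP hB hw0 hwP hwB
  have hn0 : (0:ℝ) < n := by exact_mod_cast hn
  have hk0 : (0:ℝ) < k := by exact_mod_cast hk
  have hN0 : (0:ℝ) < N := by exact_mod_cast hN
  set E : ℝ := n * k * √(N * (P * B)) with hE
  have hE0 : 0 < E := by positivity
  let fld : (Fin n → Fin k) → Fin n × Fin k → Fin n → ℝ := fun τ i y =>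
    if τ y = i.2 then w i.1 y else 0
  have hsamp : ∀ τ : Fin n → Fin k, ∃ Y : Finset (Fin n), Y.card * N ≤ 2 * n ∧
      ∑ i, |∑ y, fld τ i y - N * ∑ y ∈ Y, fld τ i y| ≤ 2 * E := by
    intro τ
    have h := hS (Fin n) (Fin n × Fin k) N (fld τ) E hN hE0 (by
      have h1 : ∀ i : Fin n × Fin k, √(N * ∑ y, fld τ i y ^ 2) ≤ √(N * (P * B)) := by
        intro i
        apply Real.sqrt_le_sqrt
        apply mul_le_mul_of_nonneg_left _ hN0.le
        calc ∑ y, fld τ i y ^ 2 ≤ ∑ y, P * w i.1 y := by
              apply Finset.sum_le_sum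
              intro y _
              simp only [fld]
              split_ifs
              · rw [sq]
                exact mul_le_mul_of_nonneg_right (hwP _ _) (hw0 _ _)
              · rw [zero_pow two_ne_zero]
                exact mul_nonneg hP.le (hw0 _ _)
          _ = P * ∑ y, w i.1 y := by rw [Finset.mul_sum]
          _ ≤ P * B := mul_le_mul_of_nonneg_left (hwB _) hP.le
      calc ∑ i, √(N * ∑ y, fld τ i y ^ 2) ≤ ∑ _i : Fin n × Fin k, √(N * (P * B)) :=
            Finset.sum_le_sum fun i _ => h1 i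
        _ = E := by
            rw [Finset.sum_const, Finset.card_univ, Fintype.card_prod, Fintype.card_fin,
              Fintype.card_fin, nsmul_eq_mul, hE]
            push_cast
            ring)
    rw [Fintype.card_fin] at h
    exact h
  choose Y hY1 hY2 using hsamp
  set m := 2 * n / N with hm
  have hYm : ∀ τ, (Y τ).card ≤ m := fun τ => (Nat.le_div_iff_mul_le (by omega)).2 (hY1 τ)
  have hcode : ∀ τ : Fin n → Fin k, ∃ f : Fin m → Option (Fin n × Fin k),
      ∀ a, a ∈ (Y τ).image (fun y => (y, τ y)) ↔ ∃ i, f i = some a := fun τ =>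
    exists_code _ m (Finset.card_image_le.trans (hYm τ))
  choose code hcode using hcode
  have hnk : Nonempty (Fin n → Fin k) := ⟨fun _ => ⟨0, by omega⟩⟩
  let rep : (Fin m → Option (Fin n × Fin k)) → (Fin n → Fin k) := fun g =>
    if h : ∃ τ, code τ = g then h.choose else Classical.arbitrary _
  have hrep : ∀ τ, code (rep (code τ)) = code τ := by
    intro τ
    have h : ∃ τ', code τ' = code τ := ⟨τ, rfl⟩
    simp only [rep]
    rw [dif_pos h]
    exact h.choose_spec
  refine ⟨Finset.univ.image rep, ?_, fun τ => ⟨rep (code τ),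
    Finset.mem_image_of_mem _ (Finset.mem_univ _), ?_⟩⟩
  · have h1 : (Finset.univ.image rep).card ≤ (n * k + 1) ^ m := by
      refine Finset.card_image_le.trans ?_
      rw [Finset.card_univ, Fintype.card_fun, Fintype.card_option, Fintype.card_prod,
        Fintype.card_fin, Fintype.card_fin, Fintype.card_fin]
    exact_mod_cast h1
  · set τ' := rep (code τ) with hτ'
    have hc : code τ' = code τ := hrep τ
    have himg : (Y τ').image (fun y => (y, τ' y)) = (Y τ).image (fun y => (y, τ y)) := by
      ext a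
      rw [hcode, hcode, hc]
    have hmem : ∀ y, y ∈ Y τ ↔ y ∈ Y τ' := by
      intro y
      constructor
      · intro hy
        have h1 : (y, τ y) ∈ (Y τ).image (fun y => (y, τ y)) := Finset.mem_image_of_mem _ hy
        rw [← himg, Finset.mem_image] at h1
        obtain ⟨z, hz, hzy⟩ := h1
        rw [Prod.mk.injEq] at hzy
        rw [← hzy.1]; exact hz
      · intro hy
        have h1 : (y, τ' y) ∈ (Y τ').image (fun y => (y, τ' y)) := Finset.mem_image_of_mem _ hy
        rw [himg, Finset.mem_image] at h1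
        obtain ⟨z, hz, hzy⟩ := h1
        rw [Prod.mk.injEq] at hzy
        rw [← hzy.1]; exact hz
    have hYY : Y τ = Y τ' := Finset.ext hmem
    have hval : ∀ y ∈ Y τ, τ y = τ' y := by
      intro y hy
      have h1 : (y, τ y) ∈ (Y τ).image (fun y => (y, τ y)) := Finset.mem_image_of_mem _ hy
      rw [← himg, Finset.mem_image] at h1
      obtain ⟨z, hz, hzy⟩ := h1
      rw [Prod.mk.injEq] at hzy
      rw [← hzy.2, hzy.1]
    have hsame : ∀ i, ∑ y ∈ Y τ, fld τ i y = ∑ y ∈ Y τ', fld τ' i y := by
      intro i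
      rw [← hYY]
      apply Finset.sum_congr rfl
      intro y hy
      simp only [fld]
      rw [hval y hy]
    have h1 := hY2 τ
    have h2 := hY2 τ'
    have h3 : dst w τ τ' = ∑ i, |∑ y, fld τ i y - ∑ y, fld τ' i y| := by
      rw [Fintype.sum_prod_type]
      rfl
    rw [h3]
    calc ∑ i, |∑ y, fld τ i y - ∑ y, fld τ' i y|
        ≤ ∑ i, (|∑ y, fld τ i y - N * ∑ y ∈ Y τ, fld τ i y| +
            |∑ y, fld τ' i y - N * ∑ y ∈ Y τ', fld τ' i y|) := by
          apply Finset.sum_le_sum
          intro i _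
          have h4 : ∑ y, fld τ i y - ∑ y, fld τ' i y =
              (∑ y, fld τ i y - N * ∑ y ∈ Y τ, fld τ i y) -
              (∑ y, fld τ' i y - N * ∑ y ∈ Y τ', fld τ' i y) := by
            rw [hsame i]; ring
          rw [h4]
          exact abs_sub _ _
      _ ≤ 2 * E + 2 * E := by
          rw [Finset.sum_add_distrib]
          exact add_le_add h1 h2
      _ = 4 * E := by ring

end Run7.h722.RG
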